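import Mathlib
import Pool.Agent.K7.H74.WD.Base
import Pool.Agent.K7.H74.WD.Dim

/-!
# Waring's problem with few shifted powers, for almost all shifts

`G (k) ≤ 2 k + 1` says that every large natural number is a sum of `2 k + 1` many `k`-th powers. Here some of the
powers `x ^ k` are replaced by shifted powers `(x + ξ) ^ k` with `ξ` in `[0, 1]`; we allow a set of measure zero of
exceptional shift vectors.

**Theorem.** Let `k ≥ 2`.

1. Let `u, j ≥ 0`, `r ≥ 1` and `2 ^ j min (1 / k, r / k - (1 - 1 / k) ^ u) > 1`. For almost all `ξ` in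
   `[0, 1] ^ (r + j)` every large natural number is the sum of `u` many `k`-th powers and the integral part of a sum
   `(x_1 + ξ_1) ^ k + ... + (x_(r+j) + ξ_(r+j)) ^ k`.
2. `u = 0`: for almost all `ξ` in `[0, 1] ^ s`, `s ≥ k + ⌊log₂ k⌋ + 2`, every large natural number is the integral
   part of a sum `(x_1 + ξ_1) ^ k + ... + (x_s + ξ_s) ^ k`.
3. If `k` is large, `2 k + 1` powers suffice of which at most `k / 6` (one in twelve) are shifted.
4. Sums of `u` many `k`-th powers may be replaced by the elements of any set `A` of natural numbers with at least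
   `X ^ a` elements up to `X`, for all large `X`, if `(1 - 1 / k) ^ u` is replaced by `1 - a`; the exponents of the
   last `j` shifted powers are arbitrary; and every large real number `τ` is at distance less than `τ ^ (-κ)` from
   one of the sums.

Outline. Let `S (α, t)` be the exponential sum over `α (x + t) ^ k`, `P ≤ x < 3 P`, and `M (α)` its mean value over
`t` in `[0, 1]`. The mean value of `|S - M|²` is `O (P log P)` for all `α`: by the first derivative test for the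
integrals of `e (α ((x + D + t) ^ k - (x + t) ^ k))` if `|α| ≥ c P ^ (1 - k)`, and by the inequality of Kusmin and
Landau for smaller `α` (where even `S - M = O (1)`). Let the set of the sums of an element of `A` and `r - 1` shifted
powers be given, with multiplicities. Its exponential sum is multiplied by `S - M` for one more variable; this gives
the variance of the number of solutions in a window, and shows that, for almost all shifts, all real numbers in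
`[X, 2 X]` but a set of measure `X ^ (1 - d)` are near one of the sums, `d < min (1 / k, a + r / k - 1)`. (The
second moment of the number of representations is estimated by the same mean values, since the shifts are
independent.)

One more shifted power: let `E` be the exceptional set. A number `t` is exceptional for the larger number of
variables only if `t - (y + ξ) ^ K` and `t - (y + h + ξ) ^ K` lie in `E` for all `y`. The average over `y` and `ξ` of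
the measure of the set of these `t` is the average over real `v` of the measure of `E ∩ (E + (v + h) ^ K - v ^ K)`,
which is `O (|E|² / X)`. Hence the exponent of the saving is doubled, for almost all shifts. (For random
coefficients this doubling is due to helper77 of this team, `MP_570bef_nt.AlmostAllCoefficients`.) When the exponent is
larger than one there is no exception.

The sums of `u` many `k`-th powers form a set with `X ^ (1 - (1 - 1 / k) ^ u)` elements up to `X` (diminishing ranges).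
-/

set_option autoImplicit false

namespace Pool.Agent.Results.MP_efcac8_nt.FewShifts

open MeasureTheory Filter Topology
open Pool.Agent.K7.H74.WD (powSums powSums_dense floor_form)

/-- At least `X ^ a` elements of `A` are at most `X`, for all large natural numbers `X`. -/
def AtLeast (A : Set ℕ) (a : ℝ) : Prop :=
  ∀ᶠ X : ℕ in atTop, (X : ℝ) ^ a ≤ ((A ∩ Set.Iic X).ncard : ℝ)

theorem closed_unit {s : ℕ} {p : (Fin s → ℝ) → Prop} (h : ∀ᵐ ξ : Fin s → ℝ, (∀ i, ξ i ∈ Set.Ioc (0:ℝ) 1) → p ξ) :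
    ∀ᵐ ξ : Fin s → ℝ, (∀ i, ξ i ∈ Set.Icc (0:ℝ) 1) → p ξ := by
  have h3 : ∀ᵐ ξ : Fin s → ℝ, ∀ i, ξ i ≠ 0 := by
    rw [ae_all_iff]
    intro i
    have h4 : ∀ᵐ x : ℝ, x ≠ 0 := compl_mem_ae_iff.2 (measure_singleton (0 : ℝ))
    rw [volume_pi]
    exact (Measure.quasiMeasurePreserving_eval (fun _ : Fin s => (volume : Measure ℝ)) i).ae h4
  filter_upwards [h, h3] with ξ h1 h2 h5
  exact h1 fun i => ⟨lt_of_le_of_ne (h5 i).1 (h2 i).symm, (h5 i).2⟩

theorem mixed (k u r j : ℕ) (hk : 2 ≤ k) (hr : 1 ≤ r)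
    (h : 1 < (2:ℝ) ^ j * min (1 / (k:ℝ)) ((r:ℝ) / k - (1 - 1 / (k:ℝ)) ^ u)) :
    ∀ᵐ ξ : Fin (r + j) → ℝ, (∀ i, ξ i ∈ Set.Icc (0:ℝ) 1) → ∀ᶠ n : ℕ in atTop,
      ∃ (y : Fin u → ℕ) (x : Fin (r + j) → ℕ), ∑ i, y i ^ k + ⌊∑ i, ((x i : ℝ) + ξ i) ^ k⌋₊ = n := by
  obtain ⟨ε, hε0, hε⟩ : ∃ ε : ℝ, 0 < ε ∧ 1 < 2 ^ j * min (1 / (k:ℝ)) ((r:ℝ) / k - (1 - 1 / (k:ℝ)) ^ u - ε) := by
    have h1 : ∀ᶠ x in 𝓝 (0:ℝ), 1 < 2 ^ j * min (1 / (k:ℝ)) ((r:ℝ) / k - (1 - 1 / (k:ℝ)) ^ u - x) := by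
      have hc : Continuous fun x : ℝ => 2 ^ j * min (1 / (k:ℝ)) ((r:ℝ) / k - (1 - 1 / (k:ℝ)) ^ u - x) := by fun_prop
      apply hc.continuousAt.eventually (lt_mem_nhds _)
      simpa using h
    have h2 : ∀ᶠ x in 𝓝[>] (0:ℝ), 1 < 2 ^ j * min (1 / (k:ℝ)) ((r:ℝ) / k - (1 - 1 / (k:ℝ)) ^ u - x) := nhdsWithin_le_nhds h1
    obtain ⟨x, hx1, hx2⟩ := (h2.and self_mem_nhdsWithin).exists
    exact ⟨x, hx2, hx1⟩
  have hA := powSums_dense hk u (a := 1 - (1 - 1 / (k:ℝ)) ^ u - ε) (by linarith)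
  have hcond : 1 < 2 ^ j * min (1 / (k:ℝ)) ((1 - (1 - 1 / (k:ℝ)) ^ u - ε) + r / k - 1) := by
    have e : (1 - (1 - 1 / (k:ℝ)) ^ u - ε) + r / k - 1 = (r:ℝ) / k - (1 - 1 / (k:ℝ)) ^ u - ε := by ring
    rw [e]
    exact hε
  have hmain := floor_form hk hr hA j (fun _ => k) (fun _ => rfl) (fun _ => hk) hcond
  filter_upwards [closed_unit hmain] with ξ hξ hpos
  filter_upwards [hξ hpos] with n hn
  obtain ⟨m, ⟨y, hy⟩, x, hx⟩ := hn
  refine ⟨y, x, ?_⟩
  rw [hy]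
  exact hx

theorem pure_shifts (k s : ℕ) (hk : 2 ≤ k) (hs : k + Nat.log 2 k + 2 ≤ s) :
    ∀ᵐ ξ : Fin s → ℝ, (∀ i, ξ i ∈ Set.Icc (0:ℝ) 1) → ∀ᶠ n : ℕ in atTop,
      ∃ x : Fin s → ℕ, ⌊∑ i, ((x i : ℝ) + ξ i) ^ k⌋₊ = n := by
  obtain ⟨j, rfl⟩ : ∃ j, s = (k + 1) + j := ⟨s - (k + 1), by omega⟩
  have hk0 : (0:ℝ) < k := by exact_mod_cast (by omega : 0 < k)
  have h2 : (k:ℝ) < 2 ^ j := by
    have h3 : k < 2 ^ j := by
      calc k < 2 ^ (Nat.log 2 k + 1) := Nat.lt_pow_succ_log_self (by norm_num) k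
        _ ≤ 2 ^ j := Nat.pow_le_pow_right (by norm_num) (by omega)
    exact_mod_cast h3
  have h := mixed k 0 (k + 1) j hk (by omega) (by
    have e : (((k + 1 : ℕ) : ℝ) / k - (1 - 1 / (k:ℝ)) ^ 0) = 1 / k := by
      push_cast
      field_simp
      ring
    rw [e, min_self, mul_one_div, lt_div_iff₀ hk0, one_mul]
    exact h2)
  filter_upwards [h] with ξ hξ hpos
  filter_upwards [hξ hpos] with n hn
  obtain ⟨y, x, hx⟩ := hn
  exact ⟨x, by simpa using hx⟩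

/-- the numerical condition for `2 k + 1` powers -/
theorem exp_bound : Real.exp (-(11 / 6)) ≤ 1 / 6.1 := by
  have h1 : (6.1:ℝ) ≤ Real.exp (11 / 6) := by
    apply le_of_pow_le_pow_left₀ (n := 6) (by norm_num) (Real.exp_pos _).le
    have e1 : Real.exp (11 / 6) ^ 6 = Real.exp 1 ^ 11 := by
      rw [← Real.exp_nat_mul, ← Real.exp_nat_mul]
      congr 1
      norm_num
    rw [e1]
    have h2 := Real.exp_one_gt_d9
    calc (6.1:ℝ) ^ 6 ≤ 2.7182818283 ^ 11 := by norm_num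
      _ ≤ Real.exp 1 ^ 11 := pow_le_pow_left₀ (by norm_num) h2.le _
  rw [Real.exp_neg, one_div]
  exact inv_anti₀ (by norm_num) h1

theorem large_k : ∀ᶠ k : ℕ in atTop, ∀ᵐ ξ : Fin (k / 6) → ℝ, (∀ i, ξ i ∈ Set.Icc (0:ℝ) 1) → ∀ᶠ n : ℕ in atTop,
    ∃ (y : Fin (2 * k + 1 - k / 6) → ℕ) (x : Fin (k / 6) → ℕ),
      ∑ i, y i ^ k + ⌊∑ i, ((x i : ℝ) + ξ i) ^ k⌋₊ = n := by
  have hlog : ∀ᶠ k : ℕ in atTop, (Nat.log 2 k : ℝ) ≤ 1 / 1000 * k := by
    have h1 : ∀ᶠ x : ℝ in atTop, ‖Real.log x‖ ≤ (1 / 1000 * Real.log 2) * ‖x‖ :=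
      Real.isLittleO_log_id_atTop.def (by have := Real.log_pos one_lt_two; positivity)
    filter_upwards [tendsto_natCast_atTop_atTop.eventually h1, eventually_ge_atTop 1] with k h2 h3
    have hl2 := Real.log_pos one_lt_two
    have hk1 : (1:ℝ) ≤ k := by exact_mod_cast h3
    rw [Real.norm_of_nonneg (Real.log_nonneg hk1), Real.norm_of_nonneg (by linarith)] at h2
    have h4 : (Nat.log 2 k : ℝ) ≤ Real.logb 2 k := Real.natLog_le_logb k 2
    refine h4.trans ?_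
    rw [Real.logb, div_le_iff₀ hl2]
    linarith
  filter_upwards [hlog, eventually_ge_atTop 10000] with k h1 h2
  have hk0 : (0:ℝ) < k := by exact_mod_cast (by omega : 0 < k)
  have hk4 : (10000:ℝ) ≤ k := by exact_mod_cast h2
  set j := Nat.log 2 k + 1 with hj
  have hq : (k:ℝ) / 6 - 1 ≤ ((k / 6 : ℕ) : ℝ) := by
    have h3 : k < 6 * (k / 6 + 1) := by omega
    have h4 : (k:ℝ) < 6 * (((k / 6 : ℕ) : ℝ) + 1) := by exact_mod_cast h3
    linarith
  have hjq : (j:ℝ) + 1 ≤ ((k / 6 : ℕ) : ℝ) := by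
    rw [hj]
    push_cast
    linarith
  have hjq' : j + 1 ≤ k / 6 := by exact_mod_cast hjq
  obtain ⟨r, hr⟩ : ∃ r, k / 6 = r + j := ⟨k / 6 - j, by omega⟩
  have hr1 : 1 ≤ r := by omega
  have hu : 11 * k ≤ 6 * (2 * k + 1 - k / 6) := by omega
  have hrr : (k:ℝ) / 6 - 1 - (1 / 1000 * k + 1) ≤ r := by
    have h3 : ((k / 6 : ℕ) : ℝ) = r + j := by exact_mod_cast hr
    have h4 : (j:ℝ) = (Nat.log 2 k : ℝ) + 1 := by rw [hj]; push_cast; ring
    linarith
  have h2j : (k:ℝ) < 2 ^ j := by exact_mod_cast Nat.lt_pow_succ_log_self (by norm_num) k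
  have hpow : (1 - 1 / (k:ℝ)) ^ (2 * k + 1 - k / 6) ≤ 1 / 6.1 := by
    have h3 : 1 - 1 / (k:ℝ) ≤ Real.exp (-(1 / (k:ℝ))) := by
      have := Real.add_one_le_exp (-(1 / (k:ℝ)))
      linarith
    have h4 : 0 ≤ 1 - 1 / (k:ℝ) := by
      rw [sub_nonneg, div_le_one hk0]
      linarith
    calc (1 - 1 / (k:ℝ)) ^ (2 * k + 1 - k / 6) ≤ Real.exp (-(1 / (k:ℝ))) ^ (2 * k + 1 - k / 6) := pow_le_pow_left₀ h4 h3 _
      _ = Real.exp (((2 * k + 1 - k / 6 : ℕ) : ℝ) * (-(1 / (k:ℝ)))) := by rw [Real.exp_nat_mul]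
      _ ≤ Real.exp (-(11 / 6)) := by
          apply Real.exp_le_exp.2
          have h5 : (11:ℝ) * k ≤ 6 * ((2 * k + 1 - k / 6 : ℕ) : ℝ) := by exact_mod_cast hu
          have h6 : (11:ℝ) / 6 ≤ ((2 * k + 1 - k / 6 : ℕ) : ℝ) * (1 / (k:ℝ)) := by
            rw [mul_one_div, div_le_div_iff₀ (by norm_num) hk0]
            linarith
          linarith
      _ ≤ _ := exp_bound
  have hcond : 1 < (2:ℝ) ^ j * min (1 / (k:ℝ)) ((r:ℝ) / k - (1 - 1 / (k:ℝ)) ^ (2 * k + 1 - k / 6)) := by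
    have h3 : 1 / (k:ℝ) ≤ (r:ℝ) / k - (1 - 1 / (k:ℝ)) ^ (2 * k + 1 - k / 6) := by
      have h4 : 1 / (k:ℝ) + 1 / 6.1 ≤ (r:ℝ) / k := by
        rw [le_div_iff₀ hk0]
        have h5 : (1 / (k:ℝ) + 1 / 6.1) * k = 1 + k / 6.1 := by field_simp
        rw [h5]
        norm_num at hrr ⊢
        linarith
      linarith
    rw [min_eq_left h3, mul_one_div, lt_div_iff₀ hk0, one_mul]
    exact h2j
  have h := mixed k (2 * k + 1 - k / 6) r j (by omega) hr1 hcond
  rw [← hr] at h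
  exact h

/-- **Waring's problem with few shifted powers, for almost all shifts.**

(1) Let `k ≥ 2`, `r ≥ 1` and `2 ^ j min (1 / k, r / k - (1 - 1 / k) ^ u) > 1`. For almost all `ξ` in
`[0, 1] ^ (r + j)` every large natural number is a sum of `u` many `k`-th powers and the integral part of a sum of
the shifted powers `(x_i + ξ_i) ^ k`, `i ≤ r + j`.

(2) If `s ≥ k + ⌊log₂ k⌋ + 2` then for almost all `ξ` in `[0, 1] ^ s` every large natural number is the integral part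
of a sum of the shifted powers `(x_i + ξ_i) ^ k`, `i ≤ s`.

(3) For all large `k`: `2 k + 1` powers suffice, `k / 6` of them shifted.

(4) The same for an arbitrary set `A` with at least `X ^ a` elements up to `X`, for arbitrary exponents of the last
`j` shifted powers, and for all large real numbers `τ`, up to `τ ^ (-κ)`. -/
theorem result :
    (∀ k u r j : ℕ, 2 ≤ k → 1 ≤ r →
      1 < (2:ℝ) ^ j * min (1 / (k:ℝ)) ((r:ℝ) / k - (1 - 1 / (k:ℝ)) ^ u) →
      ∀ᵐ ξ : Fin (r + j) → ℝ, (∀ i, ξ i ∈ Set.Icc (0:ℝ) 1) → ∀ᶠ n : ℕ in atTop,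
        ∃ (y : Fin u → ℕ) (x : Fin (r + j) → ℕ), ∑ i, y i ^ k + ⌊∑ i, ((x i : ℝ) + ξ i) ^ k⌋₊ = n) ∧
    (∀ k s : ℕ, 2 ≤ k → k + Nat.log 2 k + 2 ≤ s →
      ∀ᵐ ξ : Fin s → ℝ, (∀ i, ξ i ∈ Set.Icc (0:ℝ) 1) → ∀ᶠ n : ℕ in atTop,
        ∃ x : Fin s → ℕ, ⌊∑ i, ((x i : ℝ) + ξ i) ^ k⌋₊ = n) ∧
    (∀ᶠ k : ℕ in atTop, ∀ᵐ ξ : Fin (k / 6) → ℝ, (∀ i, ξ i ∈ Set.Icc (0:ℝ) 1) → ∀ᶠ n : ℕ in atTop,
        ∃ (y : Fin (2 * k + 1 - k / 6) → ℕ) (x : Fin (k / 6) → ℕ),
          ∑ i, y i ^ k + ⌊∑ i, ((x i : ℝ) + ξ i) ^ k⌋₊ = n) ∧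
    (∀ (k r j : ℕ) (A : Set ℕ) (a κ : ℝ) (K : Fin (r + j) → ℕ), 2 ≤ k → 1 ≤ r → AtLeast A a → 0 ≤ κ →
      (∀ i, K (Fin.castAdd j i) = k) → (∀ i, 2 ≤ K (Fin.natAdd r i)) →
      1 + κ < 2 ^ j * min (1 / (k:ℝ)) (a + r / k - 1 - κ) →
      ∀ᵐ ξ : Fin (r + j) → ℝ, (∀ i, ξ i ∈ Set.Icc (0:ℝ) 1) → ∀ᶠ τ : ℝ in atTop,
        ∃ m ∈ A, ∃ x : Fin (r + j) → ℕ, |(m : ℝ) + ∑ i, ((x i : ℝ) + ξ i) ^ K i - τ| < τ ^ (-κ)) :=
  ⟨mixed, pure_shifts, large_k, fun _ _ j _ _ _ K hk hr hA hκ hK hK2 h =>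
    closed_unit (Pool.Agent.K7.H74.WD.main hk hr hA j K hK hK2 hκ h)⟩

end Pool.Agent.Results.MP_efcac8_nt.FewShifts
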