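import Mathlib
import Pool.Agent.K7.H94.EW.Exc

/-!
# Waring-Goldbach for almost all exponents:
# `k + 1` primes for almost all numbers, `k + 2 + ⌊log_2 k⌋` primes for all large numbers

For a vector `c = (c_1, ..., c_s)` of real exponents we consider the sums `p_1 ^ (c_1) + ... + p_s ^ (c_s)` with primes
`p_1, ..., p_s`. If `c_1 = ... = c_s = k` then these are sums of `s` many `k`-th powers of primes. With integers
instead of primes and `s = 2 k + 1`, the representability of all large natural numbers is `G (k) ≤ 2 k + 1`.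

A natural number is called *represented* if it is the integral part of a sum `p_1 ^ (c_1) + ... + p_s ^ (c_s)` with
primes `p_i`. For a set `I` of indices let `D (I) = 2 ^ (s - |I|) (∑_{i ∈ I} 1 / c_i - 1)`.

**Theorem.** For almost all `c` in `[2, ∞) ^ s` the following holds for all sets `I` of indices.

* If `D (I) > 1` then all large natural numbers `n` are represented.
* For all `ε > 0` at most `N ^ (max (0, 1 - D (I)) + ε)` natural numbers `n ≤ N` are not represented, for `N` large.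
* If `η ≥ 0` and `D (I) > 1 + (2 ^ (s - |I|) + 1) η` then `|p_1 ^ (c_1) + ... + p_s ^ (c_s) - τ| < τ ^ (-η)` is
  soluble in primes for all large real `τ`.

For instance if `c` is in `[k, k + 1 / (k + 2)) ^ s` then `s = k + 1` primes suffice for all `n ≤ N` with at most
`N ^ (k / (k + 1))` exceptions, and `s = k + 2 + ⌊log_2 k⌋` primes suffice for all large `n`. The set `I` of all
indices gives at most `N ^ (2 - σ + ε)` exceptions if `σ = 1 / c_1 + ... + 1 / c_s` is between `1` and `2`, and none for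
large `n` if `σ > 2`. As at most `(N + 1) ^ σ` numbers `n ≤ N` are represented, `σ ≥ 1` is necessary.

Sketch of the proof. Let `S (α, c)` be the sum of `log p e (α p ^ c)` over the primes `p < X = 3 ^ m` with `X ^ c` a
bit larger than `T`, and `M (α, c)` the corresponding integral. The mean value over `c` (in an interval of length at
most one) of `|S|²` is at most `X + |α| ^ (-2 / c)`, up to a power of `log X`, by the first derivative test for the
integrals over `c` of `e (α (x ^ c - y ^ c))`. As the exponents are independent, this bounds the mean values over `c`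
of `|∏ S (α, c_i)|` and of its square. For `|α| T ≤ (log T) ^ A` the prime number theorem with an error term that
saves every power of the logarithm gives `∏ S = ∏ M` up to a small error, for every `c`.
For `|α| ≤ T ^ (-1/2)` we use the mean value of `|∏ S - ∏ M|`, which is smaller than the main term by a power of
`log T` as `σ > 1`, and for the other `α` the mean square. Then the Borel-Cantelli lemma and an inequality of
Plancherel type for the integral over `τ` show that for almost all `c` the number of solutions is positive for `τ` in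
`[T, 2 T]` outside of a set of measure `T ^ (2 - σ + η + ε)`, in windows of length `T ^ (-η)`.

Now let `V` be the set of exceptional `τ` for `(c_1, ..., c_s)` and `c` another exponent. If `τ` is exceptional
for `(c_1, ..., c_s, c)` then `τ - p ^ c` and `τ - q ^ c` are in `V` for fixed primes `p < q`, both about
`T ^ (1 / c)`. The integral over `c` of the measure of such `τ` in `[T, 2 T]` is at most `|V ∩ [T / 2, 2 T]|² / T`, up to
`T ^ ε`. Thus each additional variable doubles the saving for almost all values of its exponent.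
This last step follows the one for random coefficients in `MP_570bef_nt.AlmostAllCoefficients`.
-/

set_option autoImplicit false

namespace Pool.Agent.Results.MP_efcac8_nt.PrimesAlmostAllExponents

open MeasureTheory Filter

/-- `n` is the integral part of a sum `p_1 ^ (c_1) + ... + p_s ^ (c_s)` with primes `p_1, ..., p_s`. -/
def Represented {s : ℕ} (c : Fin s → ℝ) (n : ℕ) : Prop :=
  ∃ p : Fin s → ℕ, (∀ i, (p i).Prime) ∧ ⌊∑ i, (p i : ℝ) ^ (c i)⌋₊ = n

open Classical in
/-- The number of the natural numbers `n ≤ N` that are not represented. -/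
noncomputable def exceptions {s : ℕ} (c : Fin s → ℝ) (N : ℕ) : ℕ :=
  ((Finset.range (N + 1)).filter fun n => ¬ Represented c n).card

/-- The saving `D = 2 ^ (s - |I|) (∑_{i ∈ I} 1 / c_i - 1)` for a set `I` of indices. -/
noncomputable def saving {s : ℕ} (c : Fin s → ℝ) (I : Finset (Fin s)) : ℝ :=
  2 ^ (s - I.card) * ((∑ i ∈ I, 1 / c i) - 1)

/-- from the solubility of the inequality to the representation of natural numbers -/
lemma of_hits {s : ℕ} {c : Fin s → ℝ} {η : ℝ} (hη : 0 < η)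
    (h : ∀ᶠ t : ℝ in atTop, ∃ x : Fin s → ℕ, (∀ i, (x i).Prime) ∧ |K7.H94.EW.sp c x - t| < t ^ (-η)) :
    ∃ n₀ : ℕ, ∀ n : ℕ, n₀ ≤ n → Represented c n := by
  obtain ⟨τ₀, hτ₀⟩ := eventually_atTop.1
    (h.and ((tendsto_rpow_neg_atTop hη).eventually_lt_const (by norm_num : (0 : ℝ) < 1 / 2)))
  obtain ⟨n₀, hn₀⟩ := exists_nat_gt (max 1 τ₀)
  refine ⟨n₀, fun n hn => ?_⟩
  have hn1 : max 1 τ₀ < (n : ℝ) := hn₀.trans_le (by exact_mod_cast hn)
  have hn2 : 1 < (n : ℝ) := (le_max_left _ _).trans_lt hn1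
  have hn3 : τ₀ < (n : ℝ) := (le_max_right _ _).trans_lt hn1
  obtain ⟨⟨p, hp, hx⟩, h2⟩ := hτ₀ ((n : ℝ) + 1 / 2) (by linarith)
  refine ⟨p, hp, ?_⟩
  have hx2 : |(∑ i, (p i : ℝ) ^ (c i)) - ((n : ℝ) + 1 / 2)| < 1 / 2 := hx.trans h2
  rw [abs_lt] at hx2
  rw [Nat.floor_eq_iff' ?_]
  · constructor
    · linarith [hx2.1]
    · linarith [hx2.2]
  · intro h12
    rw [h12] at hn2
    norm_num at hn2

/-- exponents near `k`: the sum of the reciprocals -/
lemma sum_near {s k : ℕ} {c : Fin s → ℝ} (hk : 2 ≤ k) (hc : ∀ i, (k : ℝ) ≤ c i ∧ c i < k + 1 / (k + 2))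
    (I : Finset (Fin s)) (hI : k + 1 ≤ I.card) : 1 / ((k : ℝ) + 1) < (∑ i ∈ I, 1 / c i) - 1 := by
  have hk0 : (2 : ℝ) ≤ k := by exact_mod_cast hk
  have hk1 : (0 : ℝ) < (k : ℝ) + 2 := by linarith
  have hk2 : (0 : ℝ) < (k : ℝ) + 1 / (k + 2) := by positivity
  have hne : I.Nonempty := by
    rw [← Finset.card_pos]
    omega
  have h1 : ((k : ℝ) + 1) * (1 / (k + 1 / (k + 2))) < ∑ i ∈ I, 1 / c i := by
    have h2 : ∑ _i ∈ I, (1 / ((k : ℝ) + 1 / (k + 2))) < ∑ i ∈ I, 1 / c i := by
      apply Finset.sum_lt_sum_of_nonempty hne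
      intro i _
      exact one_div_lt_one_div_of_lt (by linarith [(hc i).1]) (hc i).2
    rw [Finset.sum_const, nsmul_eq_mul] at h2
    have h3 : (k : ℝ) + 1 ≤ I.card := by exact_mod_cast hI
    have h4 : 0 ≤ 1 / ((k : ℝ) + 1 / (k + 2)) := by positivity
    exact (mul_le_mul_of_nonneg_right h3 h4).trans_lt h2
  have h4 : ((k : ℝ) + 1) * (1 / (k + 1 / (k + 2))) - 1 = 1 / (k + 1) := by
    field_simp
    ring
  linarith

/-- exponents near `k`: the saving -/
lemma saving_near {s k : ℕ} {c : Fin s → ℝ} (hk : 2 ≤ k) (hs : k + 2 + Nat.log 2 k ≤ s)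
    (hc : ∀ i, (k : ℝ) ≤ c i ∧ c i < k + 1 / (k + 2)) : ∃ I : Finset (Fin s), 1 < saving c I := by
  obtain ⟨I, -, hI⟩ := Finset.exists_subset_card_eq (s := (Finset.univ : Finset (Fin s))) (n := k + 1)
    (by rw [Finset.card_univ, Fintype.card_fin]; omega)
  refine ⟨I, ?_⟩
  unfold saving
  have h3 : (k : ℝ) + 1 ≤ 2 ^ (s - I.card) := by
    have h4 : k < 2 ^ (Nat.log 2 k + 1) := Nat.lt_pow_succ_log_self (by norm_num) k
    have h5 : Nat.log 2 k + 1 ≤ s - I.card := by rw [hI]; omega
    have h6 : 2 ^ (Nat.log 2 k + 1) ≤ 2 ^ (s - I.card) := Nat.pow_le_pow_right (by norm_num) h5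
    have h7 : k + 1 ≤ 2 ^ (s - I.card) := by omega
    exact_mod_cast h7
  have h5 := sum_near hk hc I hI.ge
  have h6 : (0 : ℝ) < (k : ℝ) + 1 := by positivity
  calc (1 : ℝ) = ((k : ℝ) + 1) * (1 / (k + 1)) := by field_simp
    _ < ((k : ℝ) + 1) * ((∑ i ∈ I, 1 / c i) - 1) := mul_lt_mul_of_pos_left h5 h6
    _ ≤ 2 ^ (s - I.card) * ((∑ i ∈ I, 1 / c i) - 1) := by
        apply mul_le_mul_of_nonneg_right h3
        have : 0 < 1 / ((k : ℝ) + 1) := by positivity
        linarith

/-- **Waring-Goldbach for almost all exponents.** For almost all `c` in `ℝ ^ s` with all `c_i ≥ 2` the following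
holds, with `D (I) = 2 ^ (s - |I|) (∑_{i ∈ I} 1 / c_i - 1)` for sets `I` of indices:

1. if `D (I) > 1` for a set `I` then all large natural numbers are represented;
2. for all `I` and all `ε > 0` at most `N ^ (max (0, 1 - D (I)) + ε)` natural numbers `n ≤ N` are not represented,
  if `N` is large;
3. if `η ≥ 0` and `1 + (2 ^ (s - |I|) + 1) η < D (I)` then `|p_1 ^ (c_1) + ... + p_s ^ (c_s) - τ| < τ ^ (-η)` is
  soluble in primes for all large real `τ`;
4. in particular if `k ≥ 2` and `k ≤ c_i < k + 1 / (k + 2)` for all `i`: for `s ≥ k + 1` at most `N ^ (k / (k + 1))`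
  natural numbers `n ≤ N` are not represented if `N` is large, and for `s ≥ k + 2 + ⌊log_2 k⌋` all large natural numbers
  are represented. -/
theorem result (s : ℕ) :
    ∀ᵐ c : Fin s → ℝ, (∀ i, 2 ≤ c i) →
      (∀ I : Finset (Fin s), 1 < saving c I → ∃ n₀ : ℕ, ∀ n : ℕ, n₀ ≤ n → Represented c n) ∧
      (∀ I : Finset (Fin s), ∀ ε : ℝ, 0 < ε → ∃ N₀ : ℕ, ∀ N : ℕ, N₀ ≤ N →
        (exceptions c N : ℝ) ≤ (N : ℝ) ^ (max 0 (1 - saving c I) + ε)) ∧
      (∀ I : Finset (Fin s), ∀ η : ℝ, 0 ≤ η → 1 + (2 ^ (s - I.card) + 1) * η < saving c I →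
        ∃ τ₀ : ℝ, ∀ τ : ℝ, τ₀ ≤ τ → ∃ p : Fin s → ℕ, (∀ i, (p i).Prime) ∧
          |(∑ i, (p i : ℝ) ^ (c i)) - τ| < τ ^ (-η)) ∧
      (∀ k : ℕ, 2 ≤ k → (∀ i, (k : ℝ) ≤ c i ∧ c i < k + 1 / (k + 2)) →
        (k + 1 ≤ s → ∃ N₀ : ℕ, ∀ N : ℕ, N₀ ≤ N → (exceptions c N : ℝ) ≤ (N : ℝ) ^ ((k : ℝ) / (k + 1))) ∧
        (k + 2 + Nat.log 2 k ≤ s → ∃ n₀ : ℕ, ∀ n : ℕ, n₀ ≤ n → Represented c n)) := by
  classical
  filter_upwards [K7.H94.EW.exceptional_set s] with c hexc h2
  have hsv : ∀ I, saving c I = K7.H94.EW.svg c I := fun I => rfl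
  have hall : ∀ I : Finset (Fin s), 1 < saving c I → ∃ n₀ : ℕ, ∀ n : ℕ, n₀ ≤ n → Represented c n := by
    intro I hI
    have hj : (0 : ℝ) < 2 ^ (s - I.card) + 1 := by positivity
    obtain ⟨η, hη0, hη1⟩ := exists_between (show 0 < (saving c I - 1) / (2 ^ (s - I.card) + 1) from
      div_pos (by linarith) hj)
    rw [lt_div_iff₀ hj] at hη1
    exact of_hits hη0 (K7.H94.EW.hits h2 hexc I hη0.le (by rw [← hsv]; linarith))
  have hex : ∀ I : Finset (Fin s), ∀ ε : ℝ, 0 < ε → ∃ N₀ : ℕ, ∀ N : ℕ, N₀ ≤ N →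
        (exceptions c N : ℝ) ≤ (N : ℝ) ^ (max 0 (1 - saving c I) + ε) := by
    intro I ε hε
    obtain ⟨N₀, hN₀⟩ := K7.H94.EW.exc_final h2 hexc I hε
    refine ⟨N₀, fun N hN => ?_⟩
    have h5 := hN₀ N hN
    refine le_trans (le_of_eq ?_) h5
    unfold exceptions
    congr 2
    apply Finset.filter_congr
    intro n _
    unfold K7.H94.EW.NE Represented
    simp only [Set.mem_ofPred_eq]
    push Not
    rfl
  refine ⟨hall, hex, ?_, fun k hk hc => ⟨fun hs => ?_, fun hs => ?_⟩⟩
  · intro I η hη hI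
    obtain ⟨τ₀, hτ₀⟩ := eventually_atTop.1 (K7.H94.EW.hits h2 hexc I hη hI)
    exact ⟨τ₀, fun τ hτ => hτ₀ τ hτ⟩
  · have h3 := sum_near hk hc Finset.univ (by rw [Finset.card_univ, Fintype.card_fin]; exact hs)
    have e1 : saving c Finset.univ = (∑ i, 1 / c i) - 1 := by
      unfold saving
      rw [Finset.card_univ, Fintype.card_fin, Nat.sub_self, pow_zero, one_mul]
    have hk0 : (0 : ℝ) < (k : ℝ) + 1 := by positivity
    have e2 : (k : ℝ) / (k + 1) = 1 - 1 / (k + 1) := by field_simp; ring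
    have h4 : max 0 (1 - saving c Finset.univ) < (k : ℝ) / (k + 1) := by
      apply max_lt
      · have : (0 : ℝ) < k := by exact_mod_cast (by omega : 0 < k)
        positivity
      · rw [e1, e2]
        linarith
    obtain ⟨N₀, hN₀⟩ := hex Finset.univ ((k : ℝ) / (k + 1) - max 0 (1 - saving c Finset.univ)) (by linarith)
    refine ⟨N₀, fun N hN => ?_⟩
    have h5 := hN₀ N hN
    rwa [add_sub_cancel] at h5
  · obtain ⟨I, hI⟩ := saving_near hk hs hc
    exact hall I hI

end Pool.Agent.Results.MP_efcac8_nt.PrimesAlmostAllExponents
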