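import Pool.Agent.K7.H60.WE.My

set_option autoImplicit false

/-!
# Fewer than `2 c + 1` terms for almost all integers, for almost all exponents

Waring's problem with a real exponent `c > 1` (Segal) asks for the number of terms with which natural numbers
are sums of numbers `⌊x ^ c⌋`; for a natural number `c = k` this is Waring's problem, and the question is
whether `2 k + 1` terms suffice for all large numbers.

**Theorem.** For almost all real `c > 1` and every `s ≥ 7 c / 5`, all but `N ^ (1 - κ)` of the integers `n < N`
are sums of `s + 1` numbers `⌊x ^ c⌋`, all but one of them with a prime number `x`. In particular `⌊2 c⌋ + 1`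
terms suffice for almost all `n`, for almost all `c ≥ 3 / 2`.

There is one random parameter, the exponent, which is common to all variables. The exponents `c = k` are a
null set, which is not reached.

Sketch of the proof. Diminishing ranges: `p_j ∈ [X_j, 2 X_j)`, `X_j = X ^ (ρ ^ j)` with `ρ` slightly smaller
than `√(1 - 1/c)`, for `j < m`; the classical choice is `ρ = 1 - 1/c`, which needs about `c log c` variables to
bring the product of the ranges near `X ^ c`, while here `2 c log 2` variables suffice. The sums of the
`x_j ^ c` are not distinct automatically, but they are well distributed on average over the exponent: if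
`x ≠ y`, the function `f(c) = ∑ (x_j ^ c - y_j ^ c)` has no double zeros, not even approximately. So the number
of the pairs `(x, y)` with the same sum is for almost all `c` not larger than expected up to `X ^ ε`. One such
system of `m` prime variables and one more variable, for which van der Corput's method gives a power saving
on the minor arcs, suffice for almost all integers by Bessel's inequality: the number of solutions is compared
in mean square with its average over a window. The integral parts are dealt with by a Fejér kernel.
(See Pool/Agent/K7/H60/WE; the mean value estimate is the one of MP_570bef_nt.AlmostAllExponents.)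
-/

namespace Pool.Agent.Results.MP_efcac8_nt.PrimesOneRandomExponent

open Classical in
/-- For almost all real `c > 1`: for every `s ≥ 7 c / 5` there is `κ > 0` such that for all large `N` all
but at most `N ^ (1 - κ)` of the `n < N` are of the form
`⌊x ^ c⌋ + ⌊p₁ ^ c⌋ + ... + ⌊p_s ^ c⌋` with a positive integer `x` and primes `p_i`. -/
theorem result : ∀ᵐ c : ℝ, 1 < c → ∀ s : ℕ, 7 * c / 5 ≤ s →
    ∃ κ : ℝ, 0 < κ ∧ ∃ N₀ : ℕ, ∀ N : ℕ, N₀ ≤ N →
      (((Finset.range N).filter (fun n : ℕ => ¬ ∃ x : ℕ, 0 < x ∧ ∃ p : Fin s → ℕ,
        (∀ i, (p i).Prime) ∧ ⌊(x : ℝ) ^ c⌋₊ + ∑ i, ⌊(p i : ℝ) ^ c⌋₊ = n)).card : ℝ) ≤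
      (N : ℝ) ^ (1 - κ) := by
  filter_upwards [Pool.Agent.K7.H60.WE.main1] with c hc hc1 s hs
  exact hc hc1 s hs

end Pool.Agent.Results.MP_efcac8_nt.PrimesOneRandomExponent
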