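import Mathlib
import Pool.Agent.K7.H74.AG.All

/-!
# Sums of more than `k` terms `a_i x_i ^ k`, for almost all coefficients: the asymptotic formula

Let `a_1, ..., a_s > 0`. The number of `x` in `ℕ ^ s` with `|a_1 x_1 ^ k + ... + a_s x_s ^ k - τ| < η` is expected to
be about `E (τ) = 2 η Γ (1 + 1 / k) ^ s / Γ (s / k) (a_1 ... a_s) ^ (- 1 / k) τ ^ (s / k - 1)`.

**Theorem.** Let `k ≥ 2` and `s ≥ k + 1`. For almost all `a` in `(0, ∞) ^ s` the following holds for all `η` in `(0, 1)`.

* For all `ε, δ > 0`, for all but `O (N ^ max (0, 1 - 2 ^ (s - k - 1) / k + δ))` natural numbers `n ≤ N` the number of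
  solutions differs from `E (τ)` by at most `ε E (τ)`, for all real `τ` in `[n, n + 1]`.
* If `2 ^ (s - k - 1) > k`, that is, `s ≥ k + [log_2 k] + 2`, then the asymptotic formula holds: the number of
  solutions divided by `E (τ)` tends to `1` as the real number `τ` tends to infinity.

Sketch of the proof. The variables are put into blocks `{0}`, `[1, 3)`, `[3, 9)`, ..., and in every box of blocks they
are ordered by size, the largest block last; `Z = 3 ^ J` is its size. (1) *Variance, `s = k + 1`.* By Plancherel's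
theorem the mean square over `τ` and `a` of the difference between the number of solutions in a box and the volume is
the integral of Fejér's kernel times `|∏ S (α a_i) - ∏ M (α a_i)|²`, with the exponential sums `S` and integrals `M`
over the blocks; it is `O (Z ^ (k + 1 + δ))` because the mean square of `S` over `a` is `O (Z ^ (1 + δ))` if `α` is not
small. (2) *Levels.* For `t` variables the set of the real numbers with at least `λ` solutions in the box has measure
`O (Z ^ (k + δ) (Z ^ (t - k) / λ) ^ (2 ^ i))` for all `λ ≥ Z ^ (i - 1 + δ)`. (3) *Excess and deficit.* For `t = k + j`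
the number of solutions in a box exceeds the volume, or is smaller than the volume, by `λ ≥ Z ^ (j - δ)` only on a set of
measure `O (Z ^ (k - 2 ^ (j - 1) + δ') (Z ^ j / λ) ^ (2 ^ j))`. (2) and (3) by induction on the number of variables: if
there are `λ'` (excess) solutions with one more variable, then for some dyadic `λ` at least `K = λ' / (λ log Z)` of the
`τ - β x ^ k` are in the set `B` of level `λ`; if `K > 1`, count pairs: on average over `β` the real numbers `τ` with
`τ - β x ^ k` and `τ - β y ^ k` in `B` have measure `O (|B|² / |x ^ k - y ^ k|)`. If `2 ^ (j - 1) > k`, the measure is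
less than the length of the interval around an exceptional number, so there is none.
-/

set_option autoImplicit false

namespace Pool.Agent.Results.MP_efcac8_nt.RandomCoefficients

open MeasureTheory Filter

/-- The number of `x` in `ℕ ^ s` with `|a_1 x_1 ^ k + ... + a_s x_s ^ k - τ| < η`. -/
noncomputable def solutions (k : ℕ) {s : ℕ} (a : Fin s → ℝ) (η τ : ℝ) : ℕ :=
  Nat.card {x : Fin s → ℕ // |∑ i, a i * (x i : ℝ) ^ k - τ| < η}

/-- The expected number `2 η Γ (1 + 1 / k) ^ s / Γ (s / k) (a_1 ... a_s) ^ (- 1 / k) τ ^ (s / k - 1)` of solutions. -/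
noncomputable def expected (k : ℕ) {s : ℕ} (a : Fin s → ℝ) (η τ : ℝ) : ℝ :=
  2 * η * (Real.Gamma (1 + 1 / (k : ℝ)) ^ s / Real.Gamma ((s : ℝ) / k)) * (∏ i, a i) ^ (-(1 : ℝ) / k) *
    τ ^ ((s : ℝ) / k - 1)

/-- The number of `n ≤ N` such that for some real `τ` in `[n, n + 1]` the number of solutions differs from the
expected number by more than `ε` times the latter. -/
noncomputable def exceptions (k : ℕ) {s : ℕ} (a : Fin s → ℝ) (η ε : ℝ) (N : ℕ) : ℕ :=
  Nat.card {n : ℕ // n ≤ N ∧ ∃ τ : ℝ, (n : ℝ) ≤ τ ∧ τ ≤ n + 1 ∧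
    ε * expected k a η τ < |(solutions k a η τ : ℝ) - expected k a η τ|}

theorem expected_eq {k s : ℕ} (hk : 1 ≤ k) (hs : 1 ≤ s) (a : Fin s → ℝ) (η τ : ℝ) :
    Pool.Agent.K7.H74.AG.ex k a η τ = expected k a η τ := by
  unfold Pool.Agent.K7.H74.AG.ex Pool.Agent.K7.H74.AG.Pa expected
  rw [← Pool.Agent.K7.H74.WS.Vs_const hk hs]
  ring

/-- **The asymptotic formula for sums of more than `k` terms `a_i x_i ^ k`, for almost all coefficients.** Let `k ≥ 2`
and `s ≥ k + 1`. For almost all `a` in `(0, ∞) ^ s` and all `η` in `(0, 1)`: (1) for all `ε, δ > 0` there is `C` such that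
for all `N ≥ 1` there are at most `C N ^ max (0, 1 - 2 ^ (s - k - 1) / k + δ)` natural numbers `n ≤ N` such that for
some real `τ` in `[n, n + 1]` the number of `x` in `ℕ ^ s` with `|a_1 x_1 ^ k + ... + a_s x_s ^ k - τ| < η` differs from
`E (τ) = 2 η Γ (1 + 1 / k) ^ s / Γ (s / k) (a_1 ... a_s) ^ (- 1 / k) τ ^ (s / k - 1)` by more than `ε E (τ)`;
(2) if `2 ^ (s - k - 1) > k`, that is, `s ≥ k + [log_2 k] + 2`, then this number divided by `E (τ)` tends to `1` as the
real number `τ` tends to infinity. -/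
theorem result (k s : ℕ) (hk : 2 ≤ k) (hs : k + 1 ≤ s) :
    ∀ᵐ a : Fin s → ℝ, (∀ i, 0 < a i) → ∀ η : ℝ, 0 < η → η < 1 →
      (∀ ε : ℝ, 0 < ε → ∀ δ : ℝ, 0 < δ → ∃ C : ℝ, ∀ N : ℕ, 1 ≤ N →
        (exceptions k a η ε N : ℝ) ≤ C * (N : ℝ) ^ max 0 (1 - 2 ^ (s - k - 1) / (k : ℝ) + δ)) ∧
      (k < 2 ^ (s - k - 1) →
        Tendsto (fun τ : ℝ => (solutions k a η τ : ℝ) / expected k a η τ) atTop (nhds 1)) := by
  classical
  obtain ⟨j, rfl⟩ : ∃ j, s = k + j := ⟨s - k, by omega⟩
  have hj : 1 ≤ j := by omega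
  have hj2 : k + j - k - 1 = j - 1 := by omega
  have hj3 : (2 : ℝ) ^ (j - 1) = 2 ^ j / 2 := by
    obtain ⟨i, rfl⟩ : ∃ i, j = i + 1 := ⟨j - 1, by omega⟩
    rw [Nat.add_sub_cancel, pow_succ]
    ring
  have hk0 : (0 : ℝ) < k := by exact_mod_cast (by omega : 0 < k)
  filter_upwards [Pool.Agent.K7.H74.AG.bad_pos (k := k) (j := j) hk hj Pool.Agent.K7.H74.AG.hT Pool.Agent.K7.H74.AG.hAe]
    with a ha ha0 η hη hη1
  have part1 : ∀ ε : ℝ, 0 < ε → ∀ δ : ℝ, 0 < δ → ∃ C : ℝ, ∀ N : ℕ, 1 ≤ N →
        (exceptions k a η ε N : ℝ) ≤ C * (N : ℝ) ^ max 0 (1 - 2 ^ (k + j - k - 1) / (k : ℝ) + δ) := by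
    intro ε hε δ hδ
    obtain ⟨C, _, hC⟩ := ha ha0 η hη hη1 ε hε δ hδ
    refine ⟨C, fun N hN => ?_⟩
    rw [hj2, hj3]
    refine le_trans (le_of_eq ?_) (hC N hN)
    unfold exceptions Pool.Agent.K7.H74.AG.Bad
    simp only [expected_eq (by omega : 1 ≤ k) (by omega : 1 ≤ k + j)]
    rfl
  refine ⟨part1, fun hlog => ?_⟩
  -- the asymptotic formula
  have hlog' : (k : ℝ) < 2 ^ (k + j - k - 1) := by exact_mod_cast hlog
  set δ : ℝ := (2 ^ (k + j - k - 1) / (k : ℝ) - 1) with hδ
  have hδ0 : 0 < δ := by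
    rw [hδ, sub_pos, one_lt_div hk0]
    exact hlog'
  rw [Metric.tendsto_atTop]
  intro ε hε
  obtain ⟨C, hC⟩ := part1 (ε / 2) (by positivity) δ hδ0
  have hexp : max 0 (1 - 2 ^ (k + j - k - 1) / (k : ℝ) + δ) = 0 := by
    rw [hδ]
    apply max_eq_left
    linarith
  rw [hexp] at hC
  -- the set of exceptional numbers is finite
  set A : Set ℕ := {n | ∃ τ : ℝ, (n : ℝ) ≤ τ ∧ τ ≤ n + 1 ∧
    ε / 2 * expected k a η τ < |(solutions k a η τ : ℝ) - expected k a η τ|} with hA
  have hfin : A.Finite := by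
    by_contra hinf
    obtain ⟨T, hT1, hT2⟩ := Set.Infinite.exists_subset_card_eq hinf (⌈max C 0⌉₊ + 1)
    set N : ℕ := T.sup id + 1 with hN
    have h8 := hC N (by omega)
    rw [Real.rpow_zero, mul_one] at h8
    have h9 : T.card ≤ exceptions k a η (ε / 2) N := by
      unfold exceptions
      have e1 : Nat.card {n : ℕ // n ∈ T} = T.card := by
        rw [Nat.card_eq_fintype_card, Fintype.card_coe]
      rw [← e1]
      refine Nat.card_mono ((Set.finite_Iic N).subset fun n hn => hn.1) ?_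
      intro n hn
      exact ⟨(Finset.le_sup (f := id) hn).trans (Nat.le_succ _), hT1 hn⟩
    have h10 : ((⌈max C 0⌉₊ + 1 : ℕ) : ℝ) ≤ C := by
      rw [← hT2]
      exact le_trans (by exact_mod_cast h9) h8
    push_cast at h10
    have h11 := Nat.le_ceil (max C 0)
    have h12 := le_max_left C 0
    linarith
  obtain ⟨M, hM⟩ := hfin.bddAbove
  refine ⟨(M : ℝ) + 2, fun τ hτ => ?_⟩
  have hτ0 : 0 < τ := by
    have : (0 : ℝ) ≤ M := Nat.cast_nonneg M
    linarith
  have hnA : ⌊τ⌋₊ ∉ A := fun h => by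
    have h1 := hM h
    have h2 : M + 2 ≤ ⌊τ⌋₊ := Nat.le_floor (by push_cast; exact hτ)
    omega
  have h8 : |(solutions k a η τ : ℝ) - expected k a η τ| ≤ ε / 2 * expected k a η τ := by
    by_contra h
    push Not at h
    exact hnA ⟨τ, Nat.floor_le hτ0.le, (Nat.lt_floor_add_one τ).le, h⟩
  have hE : 0 < expected k a η τ := by
    unfold expected
    have hG1 : 0 < Real.Gamma (1 + 1 / (k : ℝ)) := Real.Gamma_pos_of_pos (by positivity)
    have hG2 : 0 < Real.Gamma (((k + j : ℕ) : ℝ) / k) := Real.Gamma_pos_of_pos (by positivity)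
    have hP : 0 < (∏ i, a i) ^ (-(1 : ℝ) / k) := Real.rpow_pos_of_pos (Finset.prod_pos fun i _ => ha0 i) _
    positivity
  rw [Real.dist_eq]
  have h9 : (solutions k a η τ : ℝ) / expected k a η τ - 1 =
      ((solutions k a η τ : ℝ) - expected k a η τ) / expected k a η τ := by
    field_simp
  rw [h9, abs_div, abs_of_pos hE, div_lt_iff₀ hE]
  have h10 : ε / 2 * expected k a η τ < ε * expected k a η τ := by
    apply mul_lt_mul_of_pos_right _ hE
    linarith
  linarith

end Pool.Agent.Results.MP_efcac8_nt.RandomCoefficients
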